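import Mathlib
import Pool.Agent.Lib.helper21.Mach

set_option autoImplicit false
set_option linter.unusedSectionVars false

namespace Pool.Agent.H.MP_b2749c_lc

open Function List Pool.Agent.Lib.helper21.While Pool.Agent.Lib.helper21.Mach

inductive Gn (Q : Type) : Type
  | a | s0 | t | k | s (q : Q) | u (q : Q)

abbrev Tr (Q : Type) : Type := Option (Q × Bool)
abbrev Y (Q : Type) : Type := Tr Q × Bool × ZMod 3
abbrev X (Q : Type) : Type := Y Q × ZMod 2
abbrev It (Q : Type) : Type := (Gn Q × Bool) × Bool

variable {Q : Type} [DecidableEq Q] (M : CM Q) {D : ℕ} (c : Y Q ≃ ZMod D)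

def E (r : ℕ) : Tr Q → Option Bool
  | none => none
  | some (p, b) => if M.reg p = r then M.eff p b else none

def sig : Gn Q → X Q → X Q
  | .a, x => (c.symm (c x.1 + 1), x.2)
  | .s0, x => (x.1, x.2 + 1)
  | .t, x => ((x.1.1, x.1.2.1, x.1.2.2 + if x.1.2.1 then 1 else 0), x.2)
  | .k, x => ((x.1.1, x.1.2.1, x.1.2.2 + 1), x.2)
  | .s _, x => x
  | .u q, x => ((x.1.1, (x.1.2.1 ^^ decide (E M (M.reg q) x.1.1 = some true)), x.1.2.2), x.2)

def one (i : Gn Q) : It Q := ((i, true), false)

def cw (p : Q) (β : List (It Q)) : List (It Q) :=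
  (β.map fun z => ((z.1.1, !z.1.2), z.2)).reverse ++ one (.s p) :: β

def tw (β : List (It Q)) : List (List (It Q)) := [β, β ++ [one .t], β ++ [((.t, false), false)]]

def bw (p : Q) (b : Bool) : List (List (It Q)) :=
  tw [((.u p, true), M.ld p)] ++ if b then [] else tw []

def base : Gn Q → Y Q → List (It Q)
  | .a, y => if c y = 0 then [one .a] else []
  | .s0, _ => []
  | .t, y => if y.2.1 then [one .k] else [one .t]
  | .k, _ => [one .k]
  | .s q, (none, α, z) => if α = false ∧ q = M.start ∧ z ≠ 0 then [one .s0] else []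
  | .s q, (some (p, b), α, _) =>
    if α = false ∧ M.nxt p b = some q then ((bw M p b).map (cw p)).flatten else []
  | .u q, (τ, α, _) =>
    if τ = none then [] else
      match E M (M.reg q) τ with
      | none => [one (.u q)]
      | some true => if α then [one (.u q)] else []
      | some false => [one (.u q), one (.u q)]

def iv {G : Type} [Group G] (n : ℕ) (g : Gn Q → G) (z : It Q) : G :=
  (cond z.1.2 (g z.1.1) (g z.1.1)⁻¹) ^ (if z.2 then 2 ^ n else 1)

def W {G : Type} [Group G] (n : ℕ) (g : Gn Q → G) (l : List (It Q)) : G := (l.map (iv n g)).prod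

section
variable {G : Type} [Group G] (n : ℕ) (g : Gn Q → G)
omit [DecidableEq Q]

@[simp] theorem W_nil : W n g [] = 1 := rfl
@[simp] theorem W_cons (z : It Q) (l : List (It Q)) : W n g (z :: l) = iv n g z * W n g l := by
  simp [W]
@[simp] theorem W_append (l l' : List (It Q)) : W n g (l ++ l') = W n g l * W n g l' := by
  simp [W]
@[simp] theorem iv_one (i : Gn Q) : iv n g (one i) = g i := by simp [iv, one]

theorem W_cw (p : Q) (β : List (It Q)) :
    W n g (cw p β) = (W n g β)⁻¹ * (g (.s p) * W n g β) := by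
  rw [cw, W_append, W_cons, iv_one]
  congr 1
  induction β with
  | nil => simp
  | cons z β ih =>
    rw [map_cons, reverse_cons, W_append, ih, W_cons, W_cons, mul_inv_rev, W_nil, mul_one]
    congr 1
    obtain ⟨⟨i, e⟩, f⟩ := z
    cases e <;> cases f <;> simp [iv]

theorem W_mem (l : List (It Q)) : W n g l ∈ Subgroup.closure (Set.range g) := by
  induction l with
  | nil => exact one_mem _
  | cons z l ih =>
    rw [W_cons]
    have := Subgroup.subset_closure (k := Set.range g) ⟨z.1.1, rfl⟩
    refine mul_mem (pow_mem ?_ _) ih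
    cases z.1.2
    · exact inv_mem this
    · exact this

end

def Stab {α : Type} (ρ : α → α → Prop) : Subgroup (Equiv.Perm α) where
  carrier := {γ | ∀ a b, ρ (γ a) (γ b) ↔ ρ a b}
  mul_mem' := fun h1 h2 a b => (h1 _ _).trans (h2 a b)
  one_mem' := fun _ _ => Iff.rfl
  inv_mem' := fun {γ} h a b => by simpa using (h (γ⁻¹ a) (γ⁻¹ b)).symm

def Fix {α β : Type} (f : α → β) : Subgroup (Equiv.Perm α) where
  carrier := {γ | ∀ a, f (γ a) = f a}
  mul_mem' := fun h1 h2 a => (h1 _).trans (h2 a)
  one_mem' := fun _ => rfl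
  inv_mem' := fun {γ} h a => by simpa using (h (γ⁻¹ a)).symm

theorem sig_fst (i : Gn Q) (x x' : X Q) :
    (sig M c i x).1 = (sig M c i x').1 ↔ x.1 = x'.1 := by
  obtain ⟨⟨τ, α, z⟩, β⟩ := x
  obtain ⟨⟨τ', α', z'⟩, β'⟩ := x'
  cases i <;> simp [sig]
  · rintro rfl rfl; simp
  · rintro rfl; simp

structure Act (n : ℕ) (g : Gn Q → Equiv.Perm (List (X Q))) : Prop where
  nil : ∀ i, g i [] = []
  cons : ∀ i x w, g i (x :: w) = sig M c i x :: W n g (base M c i x.1) w

variable {M c} {n : ℕ} {g : Gn Q → Equiv.Perm (List (X Q))}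

theorem Act.resp0 (H : Act M c n g) (m : ℕ) : Subgroup.closure (Set.range g) ≤
    Stab fun w w' => w.length = m ∧ w.map Prod.fst = w'.map Prod.fst := by
  induction m with
  | zero =>
    rw [Subgroup.closure_le]
    rintro _ ⟨i, rfl⟩ (_ | ⟨x, w⟩) (_ | ⟨x', w'⟩) <;> simp [H.nil, H.cons]
  | succ m ih =>
    rw [Subgroup.closure_le]
    rintro _ ⟨i, rfl⟩ (_ | ⟨x, w⟩) (_ | ⟨x', w'⟩) <;>
      simp only [H.nil, H.cons, length_cons, map_cons, map_nil, reduceCtorEq, and_false,
        cons.injEq, sig_fst, Nat.add_right_cancel_iff]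
    by_cases h : x.1 = x'.1
    · simp only [h, true_and]
      exact ih (W_mem n g _) w w'
    · simp [h]

theorem Act.len (H : Act M c n g) {γ : Equiv.Perm (List (X Q))}
    (hγ : γ ∈ Subgroup.closure (Set.range g)) (w : List (X Q)) : (γ w).length = w.length :=
  ((H.resp0 _ hγ w w).2 ⟨rfl, rfl⟩).1

theorem Act.resp (H : Act M c n g) {γ : Equiv.Perm (List (X Q))}
    (hγ : γ ∈ Subgroup.closure (Set.range g)) {w w' : List (X Q)}
    (h : w.map Prod.fst = w'.map Prod.fst) : (γ w).map Prod.fst = (γ w').map Prod.fst :=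
  ((H.resp0 _ hγ w w').2 ⟨rfl, h⟩).2

theorem gmem (g : Gn Q → Equiv.Perm (List (X Q))) (i : Gn Q) :
    g i ∈ Subgroup.closure (Set.range g) := Subgroup.subset_closure ⟨i, rfl⟩

def tr (x : X Q) : Tr Q := x.1.1
def aux (x : X Q) : Bool := x.1.2.1
def zz (j : ℕ) (w : List (X Q)) : ZMod 3 := ((w.map fun x => x.1.2.2)[j]?).getD 0
def bit (j : ℕ) (w : List (X Q)) : ZMod 2 := ((w.map Prod.snd)[j]?).getD 0
def A (j : ℕ) (l : List Bool) : Prop := ∀ b ∈ l.take j, b = false

theorem A_cons (j : ℕ) (b : Bool) (l : List Bool) : A (j + 1) (b :: l) ↔ b = false ∧ A j l := by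
  simp only [A, take_succ_cons, forall_mem_cons]

theorem Act.a_snd (H : Act M c n g) : g .a ∈ Fix (map Prod.snd) := by
  intro w
  induction w with
  | nil => rw [H.nil]
  | cons x w ih =>
    rw [H.cons]
    simp only [base]
    split_ifs <;> simp [sig, ih]

theorem Act.k_eq (H : Act M c n g) (w : List (X Q)) : g .k w = w.map (sig M c .k) := by
  induction w with
  | nil => rw [H.nil]; rfl
  | cons x w ih => rw [H.cons]; simp [base, ih]

theorem Act.t_fix (H : Act M c n g) :
    g .t ∈ Fix (fun w => (w.map tr, w.map aux, w.map Prod.snd)) := by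
  intro w
  induction w with
  | nil => rw [H.nil]
  | cons x w ih =>
    rw [H.cons]
    simp only [base]
    split_ifs
    · simp [H.k_eq, sig, tr, aux, Function.comp_def]
    · simpa [sig, tr, aux] using ih

open Classical in
theorem Act.t_zz (H : Act M c n g) (j : ℕ) (w : List (X Q)) (hj : j < w.length) :
    zz j (g .t w) = zz j w + if A (j + 1) (w.map aux) then 0 else 1 := by
  induction w generalizing j with
  | nil => simp at hj
  | cons x w ih =>
    rw [H.cons]
    simp only [base]
    by_cases h : x.1.2.1 = true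
    · have : ¬ A (j + 1) ((x :: w).map aux) := fun h' => by
        have := h' (aux x) (by simp)
        simp [aux, h] at this
      rw [if_pos h, if_neg this]
      cases j with
      | zero => simp [zz, sig, h]
      | succ j =>
        have : j < w.length := by simpa using hj
        simp [zz, H.k_eq, sig, this]
    · rw [if_neg h]
      cases j with
      | zero => simp [zz, sig, h, A, aux]
      | succ j =>
        have := ih j (by simpa using hj)
        have h2 : aux x = false := by simpa [aux] using h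
        simp only [map_cons, A_cons, h2, true_and]
        simpa [zz] using this

def UU (M : CM Q) (r : ℕ) : ℕ → List (X Q) → List (X Q)
  | _, [] => []
  | N, x :: w =>
    if x.1.1 = none then x :: w else
      match E M r x.1.1 with
      | none => x :: UU M r N w
      | some true => ((x.1.1, (x.1.2.1 ^^ N.bodd), x.1.2.2), x.2) ::
          UU M r ((N + x.1.2.1.toNat) / 2) w
      | some false => x :: UU M r (2 * N) w

theorem Act.u_pow (H : Act M c n g) (q : Q) (w : List (X Q)) (N : ℕ) :
    (g (.u q) ^ N) w = UU M (M.reg q) N w := by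
  induction w generalizing N with
  | nil =>
    induction N with
    | zero => rfl
    | succ N ih => rw [pow_succ', Equiv.Perm.mul_apply, ih]; exact H.nil _
  | cons x w ih =>
    obtain ⟨⟨τ, α, z⟩, β⟩ := x
    simp only [UU, ← ih]
    induction N with
    | zero =>
      split_ifs
      · rfl
      · split <;> cases α <;> simp
    | succ N ih2 =>
      rw [pow_succ', Equiv.Perm.mul_apply, ih2]
      split_ifs with h
      · subst h; rw [H.cons]; simp [sig, base, E]
      · split <;> rename_i h2 <;> rw [H.cons]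
        · simp [sig, base, h, h2, pow_succ']
        · simp only [sig, base, h, h2, if_false, decide_true, Nat.bodd_succ]
          have := Nat.bodd_add_div2 N
          have h3 := Nat.div2_val N
          cases α <;> cases hb : N.bodd <;> simp [hb] at this ⊢
          · congr 2; omega
          · rw [← Equiv.Perm.mul_apply, ← pow_succ']; congr 2; omega
          · rw [← Equiv.Perm.mul_apply, ← pow_succ']; congr 2; omega
          · congr 2; omega
        · simp [sig, base, h, h2, mul_add, pow_succ']

theorem UU_fix (r N : ℕ) (w : List (X Q)) : (UU M r N w).map tr = w.map tr ∧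
    (UU M r N w).map (fun x => x.1.2.2) = w.map (fun x => x.1.2.2) ∧
    (UU M r N w).map Prod.snd = w.map Prod.snd := by
  induction w generalizing N with
  | nil => simp [UU]
  | cons x w ih =>
    simp only [UU]
    split_ifs
    · simp
    · split <;> simp [ih, tr]

theorem UU_aux (r N : ℕ) (w w' : List (X Q)) (h1 : w.map tr = w'.map tr)
    (h2 : w.map aux = w'.map aux) : (UU M r N w).map aux = (UU M r N w').map aux := by
  induction w generalizing N w' with
  | nil => cases w' <;> simp_all [UU]
  | cons x w ih =>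
    obtain _ | ⟨x', w'⟩ := w'
    · simp at h1
    simp only [map_cons, cons.injEq, tr, aux] at h1 h2
    simp only [UU, ← h1.1, ← h2.1]
    split_ifs
    · simp [aux, h2]
    · split <;> simp [aux, h2.1] <;> exact ih _ _ h1.2 h2.2

def val (M : CM Q) : List (Tr Q) → St
  | some (p, b) :: l => app (M.eff p b) (M.reg p) (val M l)
  | _ => fun _ => 0

def V (M : CM Q) (n : ℕ) : ℕ → Q → List (Tr Q) → Prop
  | j + 1, q, none :: _ => j = 0 ∧ q = M.start
  | j + 1, q, some (p, b) :: l => M.nxt p b = some q ∧ b = M.tst n (p, val M l) ∧ V M n j p l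
  | _, _, _ => False

theorem key (r : ℕ) (w : List (X Q)) (j : ℕ) (q : Q) (m : ℕ) (hV : V M n j q (w.map tr))
    (hA : A j (w.map aux)) : A j ((UU M r (2 ^ m) w).map aux) ↔ val M (w.map tr) r ≤ m := by
  induction w generalizing j q m with
  | nil => cases j <;> exact hV.elim
  | cons x w ih =>
    obtain ⟨⟨_ | ⟨p, b⟩, α, z⟩, β⟩ := x
    · simpa [UU, val, tr] using hA
    obtain _ | j := j
    · exact hV.elim
    obtain ⟨-, hb, hV⟩ := hV
    have hα : α = false := hA α (by simp [aux])
    subst hα
    have hA' : A j (w.map aux) := fun b hb => hA b (by simp [hb])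
    have ih := fun m => ih j p m hV hA'
    simp only [UU, reduceCtorEq, if_false, map_cons, tr, val]
    simp only [A] at ih ⊢
    split <;> rename_i h
    · have : app (M.eff p b) (M.reg p) (val M (w.map tr)) r = val M (w.map tr) r := by
        simp only [E] at h
        split_ifs at h with h2
        · rw [h]; rfl
        · rcases M.eff p b with _ | _ | _ <;> simp [app, Ne.symm h2]
      rw [this, ← ih m]
      simp [aux]
    · simp only [E] at h
      split_ifs at h with h2
      subst h2
      cases m with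
      | zero => simp [aux, h, app]
      | succ m =>
        have := ih m
        simp [aux, h, app, pow_succ, Nat.bodd_mul] at this ⊢
        exact this
    · simp only [E] at h
      split_ifs at h with h2
      subst h2
      have := ih (m + 1)
      simp [aux, h, app, pow_succ'] at this ⊢
      exact this

open Classical in
noncomputable def ind (P : Prop) : ZMod 2 := if P then 1 else 0

theorem ind_pos {P : Prop} (h : P) : ind P = 1 := if_pos h
theorem ind_neg {P : Prop} (h : ¬ P) : ind P = 0 := if_neg h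
@[simp] theorem ind_true : ind True = 1 := ind_pos trivial
@[simp] theorem ind_false : ind False = 0 := ind_neg id

noncomputable def F (M : CM Q) (n j : ℕ) (q : Q) (w : List (X Q)) : ZMod 2 :=
  ind (V M n (j + 1) q (w.map tr) ∧ A (j + 1) (w.map aux) ∧ zz j w ≠ 0)

theorem F_congr (j : ℕ) (q : Q) {w w' : List (X Q)} (h : w.map Prod.fst = w'.map Prod.fst) :
    F M n j q w = F M n j q w' := by
  have h1 := congrArg (map fun y => y.1) h
  have h2 := congrArg (map fun y => y.2.1) h
  have h3 := congrArg (map fun y => y.2.2) h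
  simp only [map_map] at h1 h2 h3
  unfold F zz
  rw [show w.map tr = w'.map tr from h1, show w.map aux = w'.map aux from h2,
    show (w.map fun x => x.1.2.2) = w'.map fun x => x.1.2.2 from h3]

theorem Act.conj_fst (H : Act M c n g) (p : Q) (m : ℕ)
    (ih : ∀ w : List (X Q), w.length = m → (g (.s p) w).map Prod.fst = w.map Prod.fst)
    (l : List (List (It Q))) (w : List (X Q)) (hw : w.length = m) :
    (W n g (l.map (cw p)).flatten w).map Prod.fst = w.map Prod.fst := by
  induction l with
  | nil => rfl
  | cons β l ihl =>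
    rw [map_cons, flatten_cons, W_append, W_cw, Equiv.Perm.mul_apply, ← ihl,
      Equiv.Perm.mul_apply, Equiv.Perm.mul_apply]
    have := H.resp (inv_mem (W_mem n g β)) (ih (W n g β (W n g (l.map (cw p)).flatten w))
      (by rw [H.len (W_mem n g _), H.len (W_mem n g _), hw]))
    simpa using this

theorem Act.s0_fst (H : Act M c n g) (w : List (X Q)) :
    (g .s0 w).map Prod.fst = w.map Prod.fst := by
  cases w with
  | nil => rw [H.nil]
  | cons x w => rw [H.cons]; simp [sig, base]

theorem Act.s_fst (H : Act M c n g) (m : ℕ) : ∀ q (w : List (X Q)), w.length = m →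
    (g (.s q) w).map Prod.fst = w.map Prod.fst := by
  induction m with
  | zero => intro q w hw; rw [length_eq_zero_iff.1 hw, H.nil]
  | succ m ih =>
    rintro q (_ | ⟨⟨⟨_ | ⟨p, b⟩, α, z⟩, β⟩, w⟩) hw
    · simp at hw
    · rw [H.cons]; simp only [base]; split_ifs <;> simp [sig, H.s0_fst]
    · rw [H.cons]; simp only [base]; split_ifs
      · rw [map_cons, H.conj_fst p m (ih p) _ w (by simpa using hw)]; rfl
      · rfl

theorem bit_congr (j : ℕ) {w w' : List (X Q)} (h : w.map Prod.snd = w'.map Prod.snd) :
    bit j w = bit j w' := by unfold bit; rw [h]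

theorem Act.conj_bit (H : Act M c n g) (p : Q) (j : ℕ)
    (ih : ∀ w : List (X Q), j + 1 < w.length → bit (j + 1) (g (.s p) w) = bit (j + 1) w + F M n j p w)
    (l : List (List (It Q))) (hl : ∀ β ∈ l, W n g β ∈ Fix (map Prod.snd)) (w : List (X Q))
    (hw : j + 1 < w.length) : bit (j + 1) (W n g (l.map (cw p)).flatten w) =
      bit (j + 1) w + (l.map fun β => F M n j p (W n g β w)).sum := by
  induction l with
  | nil => simp
  | cons β l ihl =>
    have h1 := hl β mem_cons_self
    rw [map_cons, flatten_cons, W_append, W_cw, Equiv.Perm.mul_apply, Equiv.Perm.mul_apply,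
      Equiv.Perm.mul_apply, bit_congr _ (inv_mem h1 _),
      ih _ (by rw [H.len (W_mem n g _), H.len (W_mem n g _)]; exact hw), bit_congr _ (h1 _),
      ihl (fun β h => hl β (mem_cons_of_mem _ h)), map_cons, sum_cons,
      F_congr j p (H.resp (W_mem n g _) (H.conj_fst p _ (H.s_fst _ p) l w rfl))]
    ring

theorem Act.conj_bit0 (H : Act M c n g) (p : Q)
    (l : List (List (It Q))) (hl : ∀ β ∈ l, W n g β ∈ Fix (map Prod.snd)) (w : List (X Q)) :
    bit 0 (W n g (l.map (cw p)).flatten w) = bit 0 w := by
  induction l with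
  | nil => simp
  | cons β l ihl =>
    have h1 := hl β mem_cons_self
    have h2 : ∀ w, bit 0 (g (.s p) w) = bit 0 w := by
      rintro (_ | ⟨x, w⟩)
      · rw [H.nil]
      · rw [H.cons]; rfl
    rw [map_cons, flatten_cons, W_append, W_cw, Equiv.Perm.mul_apply, Equiv.Perm.mul_apply,
      Equiv.Perm.mul_apply, bit_congr _ (inv_mem h1 _), h2, bit_congr _ (h1 _),
      ihl (fun β h => hl β (mem_cons_of_mem _ h))]

theorem Act.t_snd (H : Act M c n g) : g .t ∈ Fix (map Prod.snd) := fun w =>
  congrArg (fun p => p.2.2) (H.t_fix w)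

theorem Act.u_snd (H : Act M c n g) (q : Q) : g (.u q) ∈ Fix (map Prod.snd) := fun w => by
  have := H.u_pow q w 1
  rw [pow_one] at this
  rw [this]; exact (UU_fix _ _ _).2.2

theorem Act.bw_snd (H : Act M c n g) (p : Q) (b : Bool) :
    ∀ β ∈ bw M p b, W n g β ∈ Fix (map Prod.snd) := by
  have h1 := H.t_snd
  have h2 : iv n g ((.u p, true), M.ld p) ∈ Fix (map Prod.snd) := pow_mem (H.u_snd p) _
  have h3 : iv n g ((.t, false), false) ∈ Fix (map Prod.snd) := pow_mem (inv_mem h1) _
  cases b <;> simp [bw, tw, mul_mem, one_mem, h1, h2, h3]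

theorem Act.tsum (H : Act M c n g) (j : ℕ) (w : List (X Q)) (hj : j < w.length)
    (P : List (X Q) → Prop) (hP : ∀ w', w'.map tr = w.map tr → w'.map aux = w.map aux →
      (P w' ↔ P w)) :
    ind (P w ∧ zz j w ≠ 0) + (ind (P (g .t w) ∧ zz j (g .t w) ≠ 0) +
      ind (P ((g .t)⁻¹ w) ∧ zz j ((g .t)⁻¹ w) ≠ 0)) =
    ind (P w ∧ A (j + 1) (w.map aux) ∧ zz j w ≠ 0) := by
  have h1 := H.t_fix w
  have h2 := inv_mem H.t_fix w
  simp only [Prod.mk.injEq] at h1 h2
  have h3 := H.t_zz j w hj
  have h4 := H.t_zz j ((g .t)⁻¹ w) (by rw [H.len (inv_mem (gmem g _))]; exact hj)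
  rw [show g .t ((g .t)⁻¹ w) = w by simp, h2.2.1] at h4
  rw [hP _ h1.1 h1.2.1, hP _ h2.1 h2.2.1, h3, eq_sub_of_add_eq h4.symm]
  have hz : ∀ z : ZMod 3, ind (z ≠ 0) = if z = 0 then 0 else 1 := fun z => by
    split_ifs with h
    · exact ind_neg (not_not.2 h)
    · exact ind_pos h
  by_cases hp : P w <;> by_cases hA : A (j + 1) (w.map aux) <;>
    simp only [hp, hA, true_and, false_and, ind_false, hz, if_true, if_false, add_zero] <;>
    generalize zz j w = z <;> revert z <;> decide

theorem Act.s_bit (H : Act M c n g) (j : ℕ) : ∀ q (w : List (X Q)), j + 1 < w.length →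
    bit (j + 1) (g (.s q) w) = bit (j + 1) w + F M n j q w := by
  induction j with
  | zero =>
    rintro q (_ | ⟨⟨⟨_ | ⟨p, b⟩, α, z⟩, β⟩, w⟩) hw
    · simp at hw
    · obtain _ | ⟨x, w⟩ := w
      · simp at hw
      rw [H.cons]; simp only [base]
      split_ifs with h
      · simp [H.cons, sig, bit, F, V, tr, aux, A, zz, h]
      · simp only [F, V, tr, aux, A, zz, map_cons]
        rw [ind_neg (by simp at h ⊢; tauto)]; simp [bit, sig]
    · rw [H.cons]; simp only [base]
      have : F M n 0 q (((some (p, b), α, z), β) :: w) = 0 := ind_neg (by simp [V, tr])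
      rw [this, add_zero]
      split_ifs
      · exact H.conj_bit0 p _ (H.bw_snd p b) w
      · rfl
  | succ j ih =>
    rintro q (_ | ⟨⟨⟨_ | ⟨p, b⟩, α, z⟩, β⟩, w⟩) hw
    · simp at hw
    · have : F M n (j + 1) q (((none, α, z), β) :: w) = 0 := ind_neg (by simp [V, tr])
      rw [this, add_zero, H.cons]; simp only [base]
      split_ifs
      · obtain _ | ⟨x, w⟩ := w
        · simp at hw
        · simp [H.cons, base, bit]
      · rfl
    · rw [H.cons]; simp only [base]
      have hw' : j + 1 < w.length := by simpa using hw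
      split_ifs with h
      · refine (H.conj_bit p j (ih p) _ (H.bw_snd p b) w hw').trans (congrArg _ ?_)
        have e1 : ∀ w', F M n j p (iv n g ((.u p, true), M.ld p) w') =
            ind ((V M n (j + 1) p (w'.map tr) ∧
              A (j + 1) ((UU M (M.reg p) (2 ^ M.thr n p) w').map aux)) ∧ zz j w' ≠ 0) :=
          fun w' => by
          have : iv n g ((.u p, true), M.ld p) w' = UU M (M.reg p) (2 ^ M.thr n p) w' := by
            rw [← H.u_pow]; unfold iv CM.thr; cases M.ld p <;> rfl
          rw [this, F, zz, (UU_fix _ _ _).1, (UU_fix _ _ _).2.1, and_assoc]; rfl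
        have e2 := H.tsum j w (by omega) (fun w' => V M n (j + 1) p (w'.map tr) ∧
          A (j + 1) ((UU M (M.reg p) (2 ^ M.thr n p) w').map aux))
          (fun w' h1 h2 => by rw [h1, UU_aux _ _ _ _ h1 h2])
        have e3 := H.tsum j w (by omega) (fun w' => V M n (j + 1) p (w'.map tr) ∧
          A (j + 1) (w'.map aux)) (fun w' h1 h2 => by rw [h1, h2])
        have e4 : ∀ w', F M n j p w' = ind ((V M n (j + 1) p (w'.map tr) ∧
          A (j + 1) (w'.map aux)) ∧ zz j w' ≠ 0) := fun w' => by
          rw [F, and_assoc]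
        have e5 : iv n g ((.t, false), false) = (g .t)⁻¹ := by simp [iv]
        have e6 : F M n (j + 1) q (((some (p, b), α, z), β) :: w) =
            ind (b = M.tst n (p, val M (w.map tr)) ∧ V M n (j + 1) p (w.map tr) ∧
              A (j + 1) (w.map aux) ∧ zz j w ≠ 0) := by
          simp [F, V, tr, aux, A_cons, h.1, h.2, zz, and_assoc]
        rw [e6]
        have e7 := key (M.reg p) w (j + 1) p (M.thr n p) (n := n) (M := M)
        cases b
        · simp only [bw, tw, Bool.false_eq_true, if_false, cons_append, nil_append, map_cons,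
            map_nil, sum_cons, sum_nil, W_cons, W_nil, mul_one, iv_one, Equiv.Perm.mul_apply, e1,
            e5, add_zero, Equiv.Perm.one_apply]
          simp only [e4]
          rw [e3, ← add_assoc, ← add_assoc, add_assoc (ind _) (ind _) (ind _), e2]
          by_cases h1 : V M n (j + 1) p (w.map tr) <;> by_cases h2 : A (j + 1) (w.map aux) <;>
            simp only [h1, h2, CM.tst, true_and, false_and, and_false, ind_false, add_zero]
          simp only [e7 h1 h2]
          by_cases h3 : val M (w.map tr) (M.reg p) ≤ M.thr n p <;> by_cases h4 : zz j w = 0 <;>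
            simp [h3, h4]
          rfl
        · simp only [bw, tw, if_true, cons_append, nil_append, map_cons, append_nil,
            map_nil, sum_cons, sum_nil, W_cons, W_nil, mul_one, iv_one, Equiv.Perm.mul_apply, e1,
            e5, add_zero]
          rw [e2]
          by_cases h1 : V M n (j + 1) p (w.map tr) <;> by_cases h2 : A (j + 1) (w.map aux) <;>
            simp only [h1, h2, CM.tst, true_and, false_and, and_false]
          simp only [e7 h1 h2]
          simp
      · have : F M n (j + 1) q (((some (p, b), α, z), β) :: w) = 0 :=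
          ind_neg (by simp only [V, tr, aux, map_cons, A_cons]; tauto)
        rw [this, add_zero]; rfl

theorem V_it (j : ℕ) (q : Q) (l : List (Tr Q)) (h : V M n (j + 1) q l) :
    M.it n j = some (q, val M l) := by
  induction j generalizing q l with
  | zero =>
    obtain _ | ⟨_ | ⟨p, b⟩, l⟩ := l
    · exact h.elim
    · rw [h.2]; rfl
    · exact h.2.2.elim
  | succ j ih =>
    obtain _ | ⟨_ | ⟨p, b⟩, l⟩ := l
    · exact h.elim
    · exact absurd h.1 (by omega)
    · rw [CM.it_succ, ih p l h.2.2, Option.bind_some, CM.step, ← h.2.1, h.1]; rfl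

theorem it_V (j : ℕ) (l' : List (Tr Q)) (s : Q × St) (h : M.it n j = some s) :
    ∃ l : List (Tr Q), l.length = j ∧ V M n (j + 1) s.1 (l ++ none :: l') ∧
      val M (l ++ none :: l') = s.2 := by
  induction j generalizing s with
  | zero => cases h; exact ⟨[], rfl, ⟨rfl, rfl⟩, rfl⟩
  | succ j ih =>
    rw [CM.it_succ] at h
    obtain ⟨s', h1, h2⟩ := Option.bind_eq_some_iff.1 h
    obtain ⟨l, h3, h4, h5⟩ := ih s' h1
    obtain ⟨q, h6, rfl⟩ := Option.map_eq_some_iff.1 h2
    refine ⟨some (s'.1, M.tst n s') :: l, by simp [h3], ⟨h6, ?_, h4⟩, ?_⟩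
    · exact congrArg (fun z => M.tst n (s'.1, z)) h5.symm
    · simp only [cons_append, val, h5]

theorem V_uniq (i j : ℕ) (q q' : Q) (l : List (Tr Q)) (h : V M n i q l) (h' : V M n j q' l) :
    i = j := by
  induction l generalizing i j q q' with
  | nil => cases i <;> exact h.elim
  | cons τ l ih =>
    obtain _ | i := i
    · exact h.elim
    obtain _ | j := j
    · exact h'.elim
    obtain _ | ⟨p, b⟩ := τ
    · rw [h.1, h'.1]
    · rw [ih _ _ _ _ h.2.2 h'.2.2]

theorem Act.not_trans (H : Act M c n g) (N : ℕ) (hN : M.it n N = none) :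
    ∃ u v : List (X Q), u.length = v.length ∧
      ∀ γ ∈ Subgroup.closure (Set.range g), γ u ≠ v := by
  have : Subgroup.closure (Set.range g) ≤ Fix (bit (N + 1)) := by
    rw [Subgroup.closure_le]
    rintro _ ⟨i, rfl⟩ w
    cases i with
    | a => exact bit_congr _ (H.a_snd w)
    | t => exact bit_congr _ (H.t_snd w)
    | u q => exact bit_congr _ (H.u_snd q w)
    | k => exact bit_congr _ (by rw [H.k_eq]; simp [sig, Function.comp_def])
    | s0 =>
      cases w with
      | nil => rw [H.nil]
      | cons x w => rw [H.cons]; rfl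
    | s q =>
      by_cases h : N + 1 < w.length
      · rw [H.s_bit N q w h, F, ind_neg, add_zero]
        intro h'
        rw [V_it _ _ _ h'.1] at hN
        cases hN
      · have := H.len (gmem g (.s q)) w
        unfold bit
        rw [getElem?_eq_none (by simp; omega), getElem?_eq_none (by simp; omega)]
  refine ⟨replicate (N + 2) ((none, false, 0), 0), replicate (N + 2) ((none, false, 0), 1),
    by simp, fun γ hγ h => ?_⟩
  have h2 := this hγ (replicate (N + 2) ((none, false, 0), 0))
  rw [h] at h2
  simp [bit] at h2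

theorem Act.a_pow [NeZero D] (H : Act M c n g) (β : ZMod 2) (w : List (X Q)) (j : ℕ) (hj : j < D) :
    (g .a ^ (j + 1)) ((c.symm 0, β) :: w) = (c.symm (j + 1 : ℕ), β) :: g .a w := by
  induction j with
  | zero => simp [H.cons, sig, base]
  | succ j ih =>
    have : ((j + 1 : ℕ) : ZMod D) ≠ 0 := by
      rw [Ne, ZMod.natCast_eq_zero_iff]
      exact Nat.not_dvd_of_pos_of_lt (by omega) hj
    rw [pow_succ', Equiv.Perm.mul_apply, ih (by omega), H.cons]
    simp only [sig, base, Equiv.apply_symm_apply, if_neg this]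
    simp

theorem Act.a_trans [NeZero D] (H : Act M c n g) (u v : List (X Q)) (h : u.length = v.length) :
    ∃ γ ∈ Subgroup.zpowers (g .a), (γ u).map Prod.fst = v.map Prod.fst := by
  have hD : 0 < D := NeZero.pos D
  have hz : Subgroup.zpowers (g .a) ≤ Subgroup.closure (Set.range g) :=
    (Subgroup.zpowers_le).2 (gmem g _)
  have hK : ∀ δ ∈ Subgroup.zpowers (g .a), ∃ γ ∈ Subgroup.zpowers (g .a),
      ∀ β w, γ ((c.symm 0, β) :: w) = (c.symm 0, β) :: δ w := by
    intro δ hδ
    let K : Subgroup (Equiv.Perm (List (X Q))) :=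
      { carrier := {δ | ∃ γ ∈ Subgroup.zpowers (g .a),
          ∀ β w, γ ((c.symm 0, β) :: w) = (c.symm 0, β) :: δ w}
        one_mem' := ⟨1, one_mem _, fun _ _ => rfl⟩
        mul_mem' := by
          rintro δ δ' ⟨γ, h1, h2⟩ ⟨γ', h3, h4⟩
          exact ⟨γ * γ', mul_mem h1 h3, fun β w => by simp [h2, h4]⟩
        inv_mem' := by
          rintro δ ⟨γ, h1, h2⟩
          exact ⟨γ⁻¹, inv_mem h1, fun β w => by rw [Equiv.Perm.inv_eq_iff_eq, h2]; simp⟩ }
    refine (Subgroup.zpowers_le (H := K)).2 ⟨g .a ^ (D - 1 + 1),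
      pow_mem (Subgroup.mem_zpowers _) _, fun β w => ?_⟩ hδ
    rw [H.a_pow β _ _ (by omega), show D - 1 + 1 = D by omega]
    simp
  have hx : ∀ (x : X Q) (w : List (X Q)), ∃ γ ∈ Subgroup.zpowers (g .a),
      γ ((c.symm 0, x.2) :: (g .a)⁻¹ w) = x :: w := fun x w =>
    ⟨_, pow_mem (Subgroup.mem_zpowers _) _, by
      rw [H.a_pow _ _ (c x.1 - 1).val (ZMod.val_lt _)]; simp⟩
  generalize hm : u.length = m at h
  induction m generalizing u v with
  | zero => exact ⟨1, one_mem _, by rw [length_eq_zero_iff.1 h.symm, length_eq_zero_iff.1 hm]; rfl⟩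
  | succ m ih =>
    obtain _ | ⟨x, w⟩ := u
    · simp at hm
    obtain _ | ⟨x', w'⟩ := v
    · simp at h
    obtain ⟨γ1, h1, e1⟩ := hx x w
    obtain ⟨γ2, h2, e2⟩ := hx x' w'
    obtain ⟨δ, h3, e3⟩ := ih ((g .a)⁻¹ w) ((g .a)⁻¹ w')
      (by rw [H.len (inv_mem (gmem g _))]; simpa using hm)
      (by rw [H.len (inv_mem (gmem g _))]; simpa using h)
    obtain ⟨γ3, h4, e4⟩ := hK δ h3
    refine ⟨γ2 * γ3 * γ1⁻¹, mul_mem (mul_mem h2 h4) (inv_mem h1), ?_⟩
    rw [← e1, ← e2, Equiv.Perm.mul_apply, Equiv.Perm.mul_apply]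
    refine H.resp (hz h2) ?_
    simpa [e4] using e3

theorem Act.flip [NeZero D] (H : Act M c n g) (hN : ∀ j, M.it n j ≠ none) (u : List (X Q)) (j : ℕ)
    (hj : j < u.length) : ∃ γ ∈ Subgroup.closure (Set.range g),
      (γ u).map Prod.fst = u.map Prod.fst ∧ bit j (γ u) = bit j u + 1 ∧
      ∀ i, j < i → i < u.length → bit i (γ u) = bit i u := by
  cases j with
  | zero =>
    refine ⟨_, gmem g .s0, H.s0_fst u, ?_⟩
    obtain _ | ⟨x, w⟩ := u
    · simp at hj
    rw [H.cons]
    refine ⟨rfl, fun i hi _ => ?_⟩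
    obtain ⟨i, rfl⟩ := Nat.exists_eq_succ_of_ne_zero hi.ne'
    rfl
  | succ j =>
    obtain ⟨s, hs⟩ := Option.ne_none_iff_exists'.1 (hN j)
    obtain ⟨l, h1, h2, -⟩ := it_V j (replicate (u.length - (j + 1)) none) s hs
    set l' := l ++ none :: replicate (u.length - (j + 1)) none with hl'
    have hl : l'.length = u.length := by simp [hl', h1]; omega
    let v : List (X Q) := l'.map fun τ => ((τ, false, 1), 0)
    obtain ⟨δ, h3, e3⟩ := H.a_trans u v (by simp [v, hl])
    have h4 : δ ∈ Subgroup.closure (Set.range g) := (Subgroup.zpowers_le).2 (gmem g _) h3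
    have h5 : δ ∈ Fix (map Prod.snd) := (Subgroup.zpowers_le).2 H.a_snd h3
    have hv : v.map tr = l' := by simp [v, tr, Function.comp_def]
    have h6 : ∀ i, i + 1 < u.length →
        bit (i + 1) ((δ⁻¹ * g (.s s.1) * δ) u) = bit (i + 1) u + F M n i s.1 v := fun i hi => by
      rw [Equiv.Perm.mul_apply, Equiv.Perm.mul_apply, bit_congr _ (inv_mem h5 _),
        H.s_bit _ _ _ (by rw [H.len h4]; exact hi), bit_congr _ (h5 _), F_congr _ _ e3]
    refine ⟨δ⁻¹ * g (.s s.1) * δ, mul_mem (mul_mem (inv_mem h4) (gmem g _)) h4, ?_, ?_,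
      fun i hi hi' => ?_⟩
    · simpa using H.resp (inv_mem h4) (H.s_fst _ s.1 (δ u) rfl)
    · rw [h6 j hj, F, ind_pos]
      refine ⟨hv ▸ h2, fun b hb => ?_, ?_⟩
      · have := mem_of_mem_take hb
        simp [v, aux] at this
        exact this.2
      · have : j < l'.length := by omega
        simp [zz, v, this]
    · obtain ⟨i, rfl⟩ := Nat.exists_eq_succ_of_ne_zero (by omega : i ≠ 0)
      rw [h6 i hi', F, ind_neg, add_zero]
      intro h
      have := V_uniq _ _ _ _ _ (hv ▸ h.1) h2
      omega

theorem Act.trans [NeZero D] (H : Act M c n g) (hN : ∀ j, M.it n j ≠ none) (u v : List (X Q))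
    (h : u.length = v.length) : ∃ γ ∈ Subgroup.closure (Set.range g), γ u = v := by
  have key : ∀ j (u : List (X Q)), u.map Prod.fst = v.map Prod.fst →
      (∀ i, j ≤ i → i < v.length → bit i u = bit i v) →
      ∃ γ ∈ Subgroup.closure (Set.range g), γ u = v := by
    intro j
    induction j with
    | zero =>
      intro u h1 h2
      have hl : u.length = v.length := by simpa using congrArg length h1
      refine ⟨1, one_mem _, ext_getElem hl fun i hi hi' => Prod.ext ?_ ?_⟩
      · have := congrArg (fun l => l[i]?) h1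
        have hi2 : i < u.length := hi
        simpa [hi2, hi'] using this
      · have := h2 i (Nat.zero_le _) hi'
        have hi2 : i < u.length := hi
        simpa [bit, hi2, hi'] using this
    | succ j ih =>
      intro u h1 h2
      have hl : u.length = v.length := by simpa using congrArg length h1
      by_cases hb : j < v.length → bit j u = bit j v
      · refine ih u h1 fun i hi hi' => ?_
        rcases hi.eq_or_lt with rfl | hi
        · exact hb hi'
        · exact h2 i hi hi'
      · push Not at hb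
        obtain ⟨γ, h3, e1, e2, e3⟩ := H.flip hN u j (hl ▸ hb.1)
        obtain ⟨γ', h4, e4⟩ := ih (γ u) (e1.trans h1) fun i hi hi' => by
          rcases hi.eq_or_lt with rfl | hi
          · rw [e2]
            have := hb.2
            revert this
            generalize bit j u = a
            generalize bit j v = b
            revert a b
            decide
          · rw [e3 i hi (hl ▸ hi'), h2 i hi hi']
        exact ⟨γ' * γ, mul_mem h4 h3, e4⟩
  obtain ⟨δ, h3, e3⟩ := H.a_trans u v h
  obtain ⟨γ, h4, e4⟩ := key v.length (δ u) e3 (fun i hi hi' => by omega)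
  exact ⟨γ * δ, mul_mem h4 ((Subgroup.zpowers_le).2 (gmem g _) h3), e4⟩

end Pool.Agent.H.MP_b2749c_lc
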